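import Pool.Agent.Work.MP_8a6869_an.CC.Final
import Pool.Agent.Work.MP_8a6869_an.CC.Quo3
import Pool.Agent.Work.MP_8a6869_an.CC.Ext
import Pool.Agent.Work.MP_8a6869_an.CC.Icc
import Pool.Agent.Work.MP_8a6869_an.CC.Flp
import Pool.Agent.Work.MP_8a6869_an.CC.Emb
import Pool.Agent.Work.MP_8a6869_an.CC.Sq2
import Pool.Agent.Work.MP_8a6869_an.CC.Vcs
import Pool.Agent.Work.MP_8a6869_an.CC.Mas
import Pool.Agent.Work.MP_8a6869_an.CC.Rmu
import Pool.Agent.Work.MP_8a6869_an.CC.Pin
import Pool.Agent.Work.MP_8a6869_an.CC.Blk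
import Pool.Agent.Work.MP_8a6869_an.CC.Est
import Pool.Agent.Work.MP_8a6869_an.CC.Sub
import Pool.Agent.Work.MP_8a6869_an.WR.ConcA

/-!
# Commuting copies in existentially closed group von Neumann algebras

Let `G` be a countable icc group, `Γ 0, ..., Γ (k - 1)` nonamenable subgroups of `G` and `V` a subgroup
which contains every `z` in `G` whose centralisers in all the `Γ i` are nonamenable. If `L(G)` is
existentially closed, then `V` is co-amenable in `G`. In particular the subgroup generated by the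
elements with nonamenable centraliser is co-amenable.

The theorem is the contrapositive, for one explicit embedding: if `V` is not co-amenable, the
embedding `L(G) → L(G ≀ ℤ/2) = (L(G) ⊗ L(G)) ⋊ ℤ/2`, `λ_g ↦ λ_(g,1)`, is not existential, for any
ultrafilter on `ℕ`. It is stated for a quotient `π : G → Q` and `V = π⁻¹ W`, where the centralisers are
taken in the groups `π (Γ i)`; `π = id` is the case above.

For instance `L(G)` is not existentially closed if `G` has an amenable normal subgroup `N` such that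
`Q = G / N` is nonamenable and the centralisers of the nontrivial elements of `Q` are amenable (a
Tarski monster or a free Burnside group of large odd exponent; these contain no free subgroups), or if
`G = N ⋊ Q` with an arbitrary `N` and such a `Q` (here `W = 1`).

Idea: the flip in `G ≀ ℤ/2` conjugates `G` to a copy which commutes with `G`. If the embedding is
existential, `L(G)` contains asymptotically unitary elements `u n` such that `u n* λ_h u n` almost
commutes with every `λ_g`; so `u n* λ_h u n` is almost supported on `V`, and the masses of `u n` on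
the cosets of `V` are almost invariant under `G`.
-/

namespace Pool.Agent.Results.MP_8a6869_an.CommutingCopies

open MP8a6869Pub MP8a6869.WR

noncomputable section

/-- The wreath product `G ≀ ℤ/2 = (G × G) ⋊ ℤ/2`. -/
abbrev Wr (G : Type) [Group G] : Type := G ≀ᵣ Multiplicative (ZMod 2)

/-- The element `(g, 1)` of `G ≀ ℤ/2`. -/
def fst (G : Type) [Group G] (g : G) : Wr G := ⟨Pi.mulSingle 1 g, 1⟩

/-- `W` is co-amenable in `Q`: there is a `Q`-invariant finitely additive probability measure on
all subsets of `Q / W`. -/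
def CoAmenable (Q : Type) [Group Q] (W : Subgroup Q) : Prop :=
  ∃ m : Set (Q ⧸ W) → ℝ, (∀ A, 0 ≤ m A) ∧ m Set.univ = 1 ∧
    (∀ A B, Disjoint A B → m (A ∪ B) = m A + m B) ∧
    ∀ (q : Q) (A : Set (Q ⧸ W)), m ((fun c => q • c) '' A) = m A

/-- `L(G)` and `L(G ≀ ℤ/2)` are separable II_1 factors, the embedding of `L(G)` in `L(G ≀ ℤ/2)` with
`λ_g ↦ λ_(g,1)` is not existential for any ultrafilter, and so `L(G)` is not existentially
closed. -/
def NotEC (G : Type) [Group G] : Prop :=
  (LG G).IsII1Factor ∧ (LG G).IsSeparable ∧ (LG (Wr G)).IsII1Factor ∧ (LG (Wr G)).IsSeparable ∧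
    (∃ ι : Embedding (LG G) (LG (Wr G)),
      (∀ (g : G) (x : (LG G).E), op (A := LGalg G) x = leftReg G g →
        op (A := LGalg (Wr G)) (ι.hom x) = leftReg (Wr G) (fst G g)) ∧
      ∀ U : Ultrafilter ℕ, ¬ IsExistential U ι) ∧
    ∀ U : Ultrafilter ℕ, ¬ IsExistentiallyClosed U (LG G)

theorem notEC_of (G : Type) [Group G] (h : MP8a6869.CC.Concl G) : NotEC G := by
  obtain ⟨h1, h2, h3, h4, ι, hι, hU⟩ := h
  have hI : (LG (Wr G)).IsII1Factor := isII1Factor_of h3
  have hE : ∀ U : Ultrafilter ℕ, ¬ IsExistential U (toPubEmb ι) :=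
    fun U hU' => hU U (isExistential_of hU')
  refine ⟨isII1Factor_of h1, h2, hI, h4, ⟨toPubEmb ι, fun g x hx => ?_, hE⟩, fun U h =>
    hE U (h (LG (Wr G)) hI h4 (toPubEmb ι))⟩
  have hx2 : x = MP8a6869.CC.lg G g := Subtype.ext hx
  rw [hx2]
  exact congrArg Subtype.val (hι g)

/-- The case `Q = G`. -/
theorem concl (G : Type) [Group G] [Countable G]
    (hicc : ∀ g : G, g ≠ 1 → (Set.range fun h : G => h * g * h⁻¹).Infinite)
    (k : ℕ) (Γ : Fin k → Subgroup G) (V : Subgroup G) (hΓ : ∀ i, ¬ IsAmen (Γ i))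
    (hz : ∀ z : G, z ∉ V → ∃ i, IsAmen ((Subgroup.centralizer {z}).subgroupOf (Γ i)))
    (hV : ¬ CoAmenable G V) : MP8a6869.CC.Concl G :=
  MP8a6869.CC.mainCC concA MP8a6869.CC.icc MP8a6869.CC.flp MP8a6869.CC.emb MP8a6869.CC.sq2
    MP8a6869.CC.vcs MP8a6869.CC.mas MP8a6869.CC.rmu MP8a6869.CC.pin MP8a6869.CC.blkf
    MP8a6869.CC.est G hicc k Γ V hΓ hz hV

/-- Let `G` be a countable icc group, `π : G → Q` a surjective homomorphism, `Γ i` finitely many
nonamenable subgroups of `G` on which `π` has amenable kernel, and `W` a subgroup of `Q` which is not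
co-amenable, such that every `q` outside `W` has an amenable centraliser in some `π (Γ i)`. Then `L(G)`
is not existentially closed. -/
theorem result :
    ∀ (G Q : Type) [Group G] [Countable G] [Group Q],
      (∀ g : G, g ≠ 1 → (Set.range fun h : G => h * g * h⁻¹).Infinite) →
      ∀ π : G →* Q, Function.Surjective π →
      ∀ (k : ℕ) (Γ : Fin k → Subgroup G) (W : Subgroup Q), (∀ i, ¬ IsAmen (Γ i)) →
        (∀ i, IsAmen (π.ker.subgroupOf (Γ i))) →
        (∀ q : Q, q ∉ W → ∃ i, IsAmen ((Subgroup.centralizer {q}).subgroupOf ((Γ i).map π))) →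
        ¬ CoAmenable Q W → NotEC G := by
  intro G Q _ _ _ hicc π hπ k Γ W hΓ hker hc hW
  refine notEC_of G (concl G hicc k Γ (W.comap π) hΓ (fun z hz => ?_) (fun h => hW
    (MP8a6869.CC.coAmen_of_comap G Q π hπ W h)))
  obtain ⟨i, hi⟩ := hc (π z) hz
  exact ⟨i, MP8a6869.CC.cent_of_quo MP8a6869.CC.sub MP8a6869.CC.ext G Q π (Γ i) (hker i) z hi⟩

end

end Pool.Agent.Results.MP_8a6869_an.CommutingCopies
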