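import Pool.Agent.Work.MP_8a6869_an.Conv

/-!
# Group von Neumann algebras of groups with free subgroups are not existentially closed

Let `G` be a countable icc group which contains a nonabelian free group. Then the separable II_1
factor `L(G)` is not existentially closed: there are a separable II_1 factor `M` and an embedding
`L(G) → M` which is not existential, for any ultrafilter on `ℕ`. That `M` is separable matters:
for `M` of large density there is no embedding of `M` in an ultrapower of `L(G)` at all.
-/

namespace Pool.Agent.Results.MP_8a6869_an.FreeSubgroup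

open MP8a6869Pub

theorem result (G : Type) [Group G] [Countable G]
    (hicc : ∀ g : G, g ≠ 1 → (Set.range fun h : G => h * g * h⁻¹).Infinite)
    (hfree : ∃ f : FreeGroup (Fin 2) →* G, Function.Injective f) :
    (LG G).IsII1Factor ∧ (LG G).IsSeparable ∧
      (∃ M : TracialVNA, M.IsII1Factor ∧ M.IsSeparable ∧ ∃ ι : Embedding (LG G) M,
        ∀ U : Ultrafilter ℕ, ¬ IsExistential U ι) ∧
      ∀ U : Ultrafilter ℕ, ¬ IsExistentiallyClosed U (LG G) := by
  obtain ⟨h1, h2, M, hM, hM', ι, hι⟩ := main G hicc hfree
  exact ⟨h1, h2, ⟨M, hM, hM', ι, hι⟩, fun U hU => hι U (hU M hM hM' ι)⟩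

end Pool.Agent.Results.MP_8a6869_an.FreeSubgroup
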