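import Pool.Agent.Work.MP_8a6869_an.PP.Grp
import Pool.Agent.Work.MP_8a6869_an.PP.Abl
import Pool.Agent.Work.MP_8a6869_an.PP.Loc
import Pool.Agent.Work.MP_8a6869_an.PP.Der
import Pool.Agent.Work.MP_8a6869_an.PP.Sel
import Pool.Agent.Work.MP_8a6869_an.PP.Grm
import Pool.Agent.Work.MP_8a6869_an.PP.Rig
import Pool.Agent.Work.MP_8a6869_an.PP.Inf
import Pool.Agent.Work.MP_8a6869_an.PP.Trv
import Pool.Agent.Work.MP_8a6869_an.PP.Cpt
import Pool.Agent.Work.MP_8a6869_an.PP.Psh
import Pool.Agent.Work.MP_8a6869_an.PP.Lst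
import Pool.Agent.Work.MP_8a6869_an.PP.Dsp
import Pool.Agent.Work.MP_8a6869_an.PP.Fin
import Pool.Agent.Work.MP_8a6869_an.PP.Bdy
import Pool.Agent.Work.MP_8a6869_an.PP.Cnt
import Pool.Agent.Work.MP_8a6869_an.PP.Alp
import Pool.Agent.Work.MP_8a6869_an.CC.Ext
import Pool.Agent.Work.MP_8a6869_an.CC.Sub
import Pool.Agent.Work.MP_8a6869_an.WR.MainA
import Pool.Agent.Work.MP_8a6869_an.WR.ModelA
import Pool.Agent.Work.MP_8a6869_an.WR.CovA
import Pool.Agent.Work.MP_8a6869_an.WR.ConcA
import Pool.Agent.Work.MP_8a6869_an.WR.Amen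
import Pool.Agent.Work.MP_8a6869_an.WR.Seq
import Pool.Agent.Work.MP_8a6869_an.Conv

/-!
# Group von Neumann algebras of groups of piecewise projective homeomorphisms

Let `G` be a countable icc group with a homomorphism `ρ` to the group of the increasing
homeomorphisms of the real line which maps some nonamenable subgroup `A` of `G` injectively to
piecewise projective homeomorphisms (with finitely many pieces), for instance a nonamenable group of
piecewise projective homeomorphisms. Then the separable II_1 factor `L(G)` is not existentially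
closed: there are a separable II_1 factor `M` and an embedding `L(G) → M` which is not
existential, for any ultrafilter on `ℕ`. Examples are the groups of Monod and of Lodha and Moore;
they contain no free subgroup.

The proof. `A` contains a nonamenable subgroup `Λ` with support in a compact set `K` and an element `g`
with `g K` disjoint from `K`. Let `α h = h * (g * h * g⁻¹)` for `h` in `Λ`. If `L(G)` is existentially closed
then there is `z` in `G` with `α h = z * h * z⁻¹` for all `h` in a nonamenable subgroup. But the set of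
the fixed points of `α h` has twice as many boundary points as the one of `h`.
-/

namespace Pool.Agent.Results.MP_8a6869_an.PiecewiseProjective

open MP8a6869Pub MP8a6869.WR

/-- `f` is piecewise projective: there is a finite set `F` such that on every interval `S` without
points of `F` the map `f` is a fractional linear transformation. -/
def IsPiecewiseProjective (f : ℝ ≃o ℝ) : Prop :=
  ∃ F : Finset ℝ, ∀ S : Set ℝ, S.OrdConnected → Disjoint S (F : Set ℝ) →
    ∃ a b c d : ℝ, a * d - b * c ≠ 0 ∧ ∀ t ∈ S, c * t + d ≠ 0 ∧ f t = (a * t + b) / (c * t + d)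

theorem result (G : Type) [Group G] [Countable G]
    (hicc : ∀ g : G, g ≠ 1 → (Set.range fun h : G => h * g * h⁻¹).Infinite)
    (ρ : G →* (ℝ ≃o ℝ)) (A : Subgroup G) (hinj : ∀ a ∈ A, ρ a = 1 → a = 1)
    (hPP : ∀ a ∈ A, IsPiecewiseProjective (ρ a)) (hA : ¬ IsAmen A) :
    (LG G).IsII1Factor ∧ (LG G).IsSeparable ∧
      (∃ M : TracialVNA, M.IsII1Factor ∧ M.IsSeparable ∧ ∃ ι : Embedding (LG G) M,
        ∀ U : Ultrafilter ℕ, ¬ IsExistential U ι) ∧
      ∀ U : Ultrafilter ℕ, ¬ IsExistentiallyClosed U (LG G) := by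
  have h2 : MP8a6869.PP.Grp2Stmt := MP8a6869.PP.grp2 MP8a6869.PP.abl MP8a6869.PP.loc
    MP8a6869.PP.der MP8a6869.PP.sel MP8a6869.CC.sub MP8a6869.CC.ext MP8a6869.PP.grm
    MP8a6869.PP.rig MP8a6869.PP.inf MP8a6869.PP.trv MP8a6869.PP.cpt MP8a6869.PP.psh
    MP8a6869.PP.lst MP8a6869.PP.dsp MP8a6869.PP.fin MP8a6869.PP.bdy MP8a6869.PP.cnt
    MP8a6869.PP.alp
  obtain ⟨H, α, hH, hα, hz⟩ := MP8a6869.PP.grp3 h2 G ρ A hinj hPP hA MP8a6869.CC.sub
  have hinfH : Infinite H := (amen H hH).1
  obtain ⟨g', hg'⟩ : ∃ g' : G, g' ≠ 1 := by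
    obtain ⟨h, hh⟩ := exists_ne (1 : H)
    exact ⟨(h : G), fun h1 => hh (Subtype.ext h1)⟩
  have hg : ∀ h : H, (h : G) = 1 → α h ≠ g' := by
    intro h h1 h2
    have h3 : h = 1 := Subtype.ext h1
    rw [h3, map_one] at h2
    exact hg' h2.symm
  have hbot : ∀ z : G,
      IsAmen (α.eqLocus ((MulAut.conj z).toMonoidHom.comp H.subtype)) := by
    intro z
    by_contra hna
    have hinfz := (amen _ hna).1
    obtain ⟨x, hx⟩ := exists_ne (1 : α.eqLocus ((MulAut.conj z).toMonoidHom.comp H.subtype))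
    exact hx (Subtype.ext (hz z x.1 x.2))
  obtain ⟨M, hM, hsep, ι, hι⟩ := mainA concA (modelA covA) seq amen G hicc H α hH hα 1 g' hg
    (fun z hzn => absurd (hbot z) hzn)
  have hinf : Infinite G := Infinite.of_injective (fun h : H => (h : G)) Subtype.val_injective
  have hI : (toPub M).IsII1Factor := isII1Factor_of hM
  have hU : ∀ U : Ultrafilter ℕ, ¬ IsExistential U (toPubEmb ι) :=
    fun U hU => hι U (isExistential_of hU)
  exact ⟨isII1Factor_of (MP8a6869.LG_factor G hicc), MP8a6869.Sep.separable_ell2 G,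
    ⟨toPub M, hI, hsep, toPubEmb ι, hU⟩, fun U h => hU U (h (toPub M) hI hsep (toPubEmb ι))⟩

end Pool.Agent.Results.MP_8a6869_an.PiecewiseProjective
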