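import Pool.Agent.Work.MP_8a6869_an.WR.Final2
import Pool.Agent.Work.MP_8a6869_an.WR.Wand
import Pool.Agent.Work.MP_8a6869_an.WR.Conc
import Pool.Agent.Work.MP_8a6869_an.WR.Amen
import Pool.Agent.Work.MP_8a6869_an.WR.Emb
import Pool.Agent.Work.MP_8a6869_an.WR.Emb0
import Pool.Agent.Work.MP_8a6869_an.WR.AutA
import Pool.Agent.Work.MP_8a6869_an.WR.AutB
import Pool.Agent.Work.MP_8a6869_an.WR.AutC
import Pool.Agent.Work.MP_8a6869_an.WR.AutD
import Pool.Agent.Work.MP_8a6869_an.WR.AutE
import Pool.Agent.Work.MP_8a6869_an.WR.AutF
import Pool.Agent.Work.MP_8a6869_an.WR.AutW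
import Pool.Agent.Work.MP_8a6869_an.WR.CovG
import Pool.Agent.Work.MP_8a6869_an.WR.CovH
import Pool.Agent.Work.MP_8a6869_an.WR.CovZ
import Pool.Agent.Work.MP_8a6869_an.WR.Cross
import Pool.Agent.Work.MP_8a6869_an.WR.L2FB
import Pool.Agent.Work.MP_8a6869_an.WR.NeumB
import Pool.Agent.Work.MP_8a6869_an.WR.Model
import Pool.Agent.Work.MP_8a6869_an.WR.Model2
import Pool.Agent.Work.MP_8a6869_an.WR.Seq
import Pool.Agent.Work.MP_8a6869_an.WR.Contra
import Pool.Agent.Work.MP_8a6869_an.WR.Contra2

/-!
# Group von Neumann algebras of groups containing wreath products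

Let `G` be a countable icc group which contains a restricted wreath product `C ≀ Γ` of a
nontrivial group `C` by a nonamenable group `Γ`. Then the separable II_1 factor `L(G)` is not
existentially closed: there are a separable II_1 factor `M` and an embedding `L(G) → M` which is
not existential, for any ultrafilter on `ℕ`. No free subgroup is needed: `Γ` may be a free
Burnside group or a nonamenable Tarski monster.

The proof uses an equivariant completely positive map of the group ring of `⊕_Γ C` which is not
induced by group elements (a marker involution, if the lamps have finite order; a random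
inversion, if they have infinite order), and the fact that the points of `G` with infinite
centraliser in `Γ` are wandering for `⊕_Γ C` unless `Γ` contains a free group.
-/

namespace Pool.Agent.Results.MP_8a6869_an.WreathProduct

open MP8a6869Pub MP8a6869.WR

theorem result (G : Type) [Group G] [Countable G]
    (hicc : ∀ g : G, g ≠ 1 → (Set.range fun h : G => h * g * h⁻¹).Infinite)
    (C Γ : Type) [Group C] [Group Γ] [Nontrivial C] (hΓ : ¬ IsAmen Γ)
    (hW : ∃ f : restrictedWreath C Γ →* G, Function.Injective f) :
    (LG G).IsII1Factor ∧ (LG G).IsSeparable ∧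
      (∃ M : TracialVNA, M.IsII1Factor ∧ M.IsSeparable ∧ ∃ ι : Embedding (LG G) M,
        ∀ U : Ultrafilter ℕ, ¬ IsExistential U ι) ∧
      ∀ U : Ultrafilter ℕ, ¬ IsExistentiallyClosed U (LG G) := by
  have hfin : MainWStmt := main_of amen emb (autB autA) (autC autA) (autD autA (autB autA)) autE
    (autF autA) autW (model covG l2fb neumB) seq (contra wand conc)
  have hmain : MainW2Stmt := main2_of hfin amen emb0 cross covZ (model2 covH l2fb neumB) seq
    (contra2 wand conc)
  obtain ⟨h1, h2, M, hM, hM', ι, hι⟩ := main2_pub amen hmain G hicc C Γ hΓ hW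
  exact ⟨h1, h2, ⟨M, hM, hM', ι, hι⟩, fun U hU => hι U (hU M hM hM' ι)⟩

end Pool.Agent.Results.MP_8a6869_an.WreathProduct
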